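import Pool.Agent.Lib.MP_529e02_al.Main

/-!
# Arcs and Cantor sets in the boundaries of hyperbolic Coxeter groups
-/

namespace Pool.Agent.Results.MP_529e02_al.CoxeterGroups

open Pool.Agent.Lib.MP_529e02_al Set

/-- Let `W` be a word-hyperbolic Coxeter group with finitely many generators, and let `X` be a space
homeomorphic to its Gromov boundary. If no Cantor set separates `X`, then no arc separates `X`. -/
theorem result {B W X : Type*} [Finite B] [Group W] [TopologicalSpace X] {M : CoxeterMatrix B}
    (cs : CoxeterSystem M W) (h : IsHyp cs) (e : X ≃ₜ Bdry cs h)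
    (hC : ∀ C : Set X, IsCantorSet C → IsPreconnected Cᶜ) (A : Set X) (hA : IsArc A) :
    IsConnected Aᶜ := by
  have h1 : CompactSpace X := e.symm.compactSpace
  have h2 : TopologicalSpace.MetrizableSpace X := e.isEmbedding.metrizableSpace
  have h3 : Foldable X := (foldable_bdry cs h).of_homeomorph e
  have key : ∀ A : Set X, IsArc A → IsPreconnected Aᶜ := by
    intro A hA
    by_contra hcon
    obtain ⟨C, hC1, hC2⟩ := exists_cantorSet h3 hA hcon
    exact hC2 (hC C hC1)
  refine ⟨?_, key A hA⟩
  by_contra hcon
  rw [not_nonempty_iff_eq_empty, compl_empty_iff] at hcon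
  obtain ⟨A', h4, h5⟩ := exists_subarc hA hcon
  exact h5 (key A' h4)

end Pool.Agent.Results.MP_529e02_al.CoxeterGroups
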